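import Pool.Agent.Lib.MP_045627_gt.Asy

namespace Pool.Agent.Results.MP_045627_gt.Profile

open Pool.Agent.Lib.MP_045627_gt MeasureTheory Set Filter Real
open scoped Topology

theorem result :
    (∀ V, 0 < V → 0 < profile V) ∧ ConcaveOn ℝ (Ioi 0) profile ∧
    Tendsto (fun V => 2 * V / profile V - log V + 2 * log (log V)) atTop (𝓝 (-2 - log π)) ∧
    (∀ (ρ : P3 → ℝ) (H : ℝ), CMC ρ H → 0 < volume {p | ρ p ≤ 0} → per {p | ρ p ≤ 0} ≠ ⊤ ∧
      ∀ W, 0 < W → profile W - 2 * H * W ≤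
        (per {p | ρ p ≤ 0}).toReal - 2 * H * (volume {p | ρ p ≤ 0}).toReal) ∧
    ∀ (ρ : ℕ → P3 → ℝ) (H : ℕ → ℝ), (∀ n, CMC (ρ n) (H n)) → (∀ n, 0 < volume {p | ρ n p ≤ 0}) →
      (∀ n (Ω : Set P3), IsCompact Ω → volume Ω = volume {p | ρ n p ≤ 0} →
        per {p | ρ n p ≤ 0} ≤ per Ω) →
      (Tendsto H atTop (𝓝 0) ∨ Tendsto (fun n => (volume {p | ρ n p ≤ 0}).toReal) atTop atTop) →
      Tendsto (fun n => (volume {p | ρ n p ≤ 0}).toReal * H n ^ 2 * exp (-1 / H n)) atTop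
        (𝓝 (π * exp 1)) ∧
      Tendsto (fun n => (per {p | ρ n p ≤ 0}).toReal * H n * exp (-1 / H n)) atTop
        (𝓝 (2 * π * exp 1)) := by
  have key : ∀ (ρ : P3 → ℝ) (H : ℝ), CMC ρ H → 0 < volume {p | ρ p ≤ 0} →
      0 < (volume {p | ρ p ≤ 0}).toReal ∧
        volume {p | ρ p ≤ 0} = ENNReal.ofReal (volume {p | ρ p ≤ 0}).toReal := fun ρ H h h0 =>
    ⟨ENNReal.toReal_pos h0.ne' h.compact.measure_lt_top.ne,
      (ENNReal.ofReal_toReal h.compact.measure_lt_top.ne).symm⟩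
  refine ⟨fun V => prof_pos, profile_concave, profile_asy, fun ρ H h h0 =>
    ⟨(h.support (key ρ H h h0).1 (key ρ H h h0).2 one_pos).1,
      fun W hW => (h.support (key ρ H h h0).1 (key ρ H h h0).2 hW).2⟩, fun ρ H h h0 h1 h2 => ?_⟩
  have k := fun n => key _ _ (h n) (h0 n)
  have e : ∀ n, (per {p | ρ n p ≤ 0}).toReal = profile (volume {p | ρ n p ≤ 0}).toReal := fun n =>
    congrArg ENNReal.toReal (le_antisymm (le_iInf₂ fun Ω a => h1 n Ω a.1 (a.2.trans (k n).2.symm))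
      (iInf₂_le _ ⟨(h n).compact, (k n).2⟩))
  have s := fun n W hW => e n ▸ ((h n).support (k n).1 (k n).2 (W := W) hW).2
  simp only [e]
  exact cmc_asy (fun n => (k n).1) s (h2.elim (vol_top (fun n => (k n).1) s) id)

end Pool.Agent.Results.MP_045627_gt.Profile
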